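import Pool.Agent.R11.MetMain

/-!
# Equal gonality, strictly smaller second gonality of the metric graph

Let `G₀` be a graph with `dgon(Γ(G₀)) ≤ 28 < dgon(G₀)` and let `G` be the union of `G₀` and of a
complete graph on `n + 1` vertices, with one common vertex.  If `n` is large then
`dgon(G) = dgon(Γ(G)) = n`, but `dgon_2(Γ(G)) ≤ n + 28 < dgon_2(G)`.

The definitions are those of `Pool.Agent.R11.MetDefs`: `mdgon G r` is `dgon_r(Γ(G))` and `gdgon G r`
is `dgon_r(G)`.
-/

set_option autoImplicit false

namespace Pool.Agent.Results.MP_7c139f_co.EqualThenStrict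

open Pool.Agent.H997R3.Gon Pool.Agent.R11.MetGon

/-- For every sufficiently large integer `n` there is a finite connected loopless multigraph `G`
with `dgon(G) = dgon(Γ(G)) = n` and `dgon_2(Γ(G)) < dgon_2(G)`. -/
theorem result : ∃ N : ℕ, ∀ n : ℕ, N ≤ n → ∃ (V E : Type) (_ : Fintype V) (_ : DecidableEq V)
    (_ : Fintype E) (G : MGraph V E), G.Connected ∧ gdgon G 1 = n ∧ mdgon G 1 = n ∧
      mdgon G 2 < gdgon G 2 :=
  main

end Pool.Agent.Results.MP_7c139f_co.EqualThenStrict
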